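import Pool.Agent.Lib.MP_b5021c_nt.E2.H80.Trez
import Pool.Agent.Lib.MP_b5021c_nt.E1.Lin
import Pool.Agent.Lib.MP_b5021c_nt.IfaceE5
import Pool.Agent.Lib.MP_b5021c_nt.E1.H18.Amb
import Pool.Agent.Lib.MP_b5021c_nt.B.H40.Lop
import Pool.Agent.Lib.MP_b5021c_nt.B.H20.E2Tpx
import Pool.Agent.Lib.MP_b5021c_nt.S.H31.Qp3

/-!
# MP_b5021c_nt, all theta: rank at least two implies `θ ≥ (1 + √5)/2` (helper12)
-/

namespace Pool.Agent.B5.H12

open scoped LaurentPolynomial
open Polynomial Pool.Agent.B5 Pool.Agent.B5.Nr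

/-- Self-adjoint and nonnegative on the circle. -/
def Nz (p : RO ℤ) : Prop := rsh p = p ∧ ∀ z : Circle, 0 ≤ (evR z p).re

/-- The weight `2 + s (z^m + z^(-m))`. -/
noncomputable def wt (s m : ℤ) : RO ℤ :=
  AddMonoidAlgebra.single 0 2 + (AddMonoidAlgebra.single m s + AddMonoidAlgebra.single (-m) s)

theorem emb_int (n : ℤ) : (Coef.emb n : ℂ) = (n : ℂ) := by
  change (Int.castRingHom ℂ) _ = _
  exact eq_intCast _ _

theorem coeff_mul_single' (p : RO ℤ) (m s k : ℤ) :
    (p * AddMonoidAlgebra.single m s : RO ℤ).coeff k = p.coeff (k - m) * s := by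
  induction p using AddMonoidAlgebra.induction_linear with
  | zero => simp
  | add f g hf hg =>
    rw [add_mul, AddMonoidAlgebra.coeff_add, AddMonoidAlgebra.coeff_add, Finsupp.add_apply,
      Finsupp.add_apply, hf, hg, add_mul]
  | single n c =>
    rw [AddMonoidAlgebra.single_mul_single, AddMonoidAlgebra.coeff_single,
      AddMonoidAlgebra.coeff_single, Finsupp.single_apply, Finsupp.single_apply]
    by_cases h : n + m = k
    · rw [if_pos h, if_pos (by omega)]
    · rw [if_neg h, if_neg (by omega), zero_mul]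

theorem coeff_wt (p : RO ℤ) (s m k : ℤ) :
    (p * wt s m).coeff k = 2 * p.coeff k + s * (p.coeff (k - m) + p.coeff (k + m)) := by
  unfold wt
  rw [mul_add, mul_add, AddMonoidAlgebra.coeff_add, AddMonoidAlgebra.coeff_add,
    Finsupp.add_apply, Finsupp.add_apply, coeff_mul_single', coeff_mul_single',
    coeff_mul_single', sub_zero, sub_neg_eq_add]
  ring

theorem rsh_wt (s m : ℤ) : rsh (wt s m) = wt s m := by
  unfold wt
  rw [map_add, map_add, H36.rsh_single, H36.rsh_single, H36.rsh_single, neg_zero, neg_neg]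
  have h : ∀ n : ℤ, (Coef.conj n : ℤ) = n := fun n => rfl
  rw [h, h]
  rw [add_comm (AddMonoidAlgebra.single (-m) s) (AddMonoidAlgebra.single m s)]

theorem evR_wt (z : Circle) (s m : ℤ) :
    evR z (wt s m) = ((2 + s * (2 * ((z : ℂ) ^ m).re) : ℝ) : ℂ) := by
  unfold wt
  rw [map_add, map_add, H36.evR_single, H36.evR_single, H36.evR_single, emb_int, emb_int, zpow_zero,
    zpow_neg]
  have h1 : ((z : ℂ) ^ m)⁻¹ = (starRingEnd ℂ) ((z : ℂ) ^ m) := by
    rw [map_zpow₀, ← Circle.coe_inv_eq_conj, Circle.coe_inv, inv_zpow]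
  have h2 : (z : ℂ) ^ m + (starRingEnd ℂ) ((z : ℂ) ^ m) = ((2 * ((z : ℂ) ^ m).re : ℝ) : ℂ) := by
    rw [Complex.add_conj]
  rw [h1, ← mul_add, h2]
  push_cast
  ring

theorem wt_nonneg (z : Circle) {s : ℤ} (hs : s = 1 ∨ s = -1) (m : ℤ) :
    0 ≤ 2 + (s : ℝ) * (2 * ((z : ℂ) ^ m).re) := by
  have h1 : |((z : ℂ) ^ m).re| ≤ 1 := by
    refine (Complex.abs_re_le_norm _).trans ?_
    rw [norm_zpow, Circle.norm_coe, one_zpow]
  obtain ⟨h2, h3⟩ := abs_le.mp h1
  rcases hs with rfl | rfl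
  · push_cast; linarith
  · push_cast; linarith

theorem Nz.mul_wt {p : RO ℤ} (hp : Nz p) {s : ℤ} (hs : s = 1 ∨ s = -1) (m : ℤ) :
    Nz (p * wt s m) := by
  refine ⟨by rw [map_mul, rsh_wt, hp.1], fun z => ?_⟩
  rw [map_mul, evR_wt, mul_comm, Complex.re_ofReal_mul]
  exact mul_nonneg (wt_nonneg z hs m) (hp.2 z)

theorem Am_zero (p : RO ℤ) : Am 0 p = p.coeff 0 := by
  induction p using AddMonoidAlgebra.induction_linear with
  | zero => simp [Am]
  | add f g hf hg =>
    rw [H18.Am_add, hf, hg, AddMonoidAlgebra.coeff_add, Finsupp.add_apply]; push_cast; rfl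
  | single n c =>
    rw [H18.Am_single, AddMonoidAlgebra.coeff_single, Finsupp.single_apply]
    by_cases h : n = 0
    · subst h; simp
    · rw [if_neg h, zero_pow (by omega)]; simp

theorem Am_nonneg {p : RO ℤ} (hp : Nz p) {a : ℝ} (ha : |a| < 1) : 0 ≤ Am a p := by
  rw [← H18.Am_pmn a ha p]
  unfold pmn
  apply Real.circleAverage_nonneg_of_nonneg
  intro z hz
  have hz1 : ‖z‖ = 1 := by simpa using hz
  obtain ⟨zc, rfl⟩ : ∃ zc : Circle, (zc : ℂ) = z := ⟨⟨z, mem_sphere_zero_iff_norm.mpr hz1⟩, rfl⟩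
  have hna : ‖(a : ℂ)‖ < 1 := by rw [Complex.norm_real, Real.norm_eq_abs]; exact ha
  refine mul_nonneg (div_nonneg ?_ (sq_nonneg _)) ?_
  · nlinarith [norm_nonneg (a : ℂ)]
  · have h1 : evL (zc : ℂ) p = evR zc p := by
      rw [H36.evR_eq]; rfl
    rw [h1]
    exact hp.2 zc

/-- The kernel identity. -/
theorem Am_step (p : RO ℤ) {a b : ℝ} {s : ℤ} (hs : s = 1 ∨ s = -1) (ha : 0 ≤ a)
    (hb : b = s * a) :
    Am b p = (1 - a) / (1 + a) * p.coeff 0 + a / (1 + a) ^ 2 * Am b (p * wt s 1) := by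
  have h1a : (1 + a) ≠ 0 := by linarith
  induction p using AddMonoidAlgebra.induction_linear with
  | zero => simp [Am]
  | add f g hf hg =>
    rw [add_mul, H18.Am_add, H18.Am_add, hf, hg, AddMonoidAlgebra.coeff_add, Finsupp.add_apply]
    push_cast
    ring
  | single n c =>
    unfold wt
    rw [mul_add, mul_add, AddMonoidAlgebra.single_mul_single, AddMonoidAlgebra.single_mul_single,
      AddMonoidAlgebra.single_mul_single, H18.Am_add, H18.Am_add, H18.Am_single, H18.Am_single,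
      H18.Am_single, H18.Am_single, AddMonoidAlgebra.coeff_single, Finsupp.single_apply, add_zero]
    have hss : ((s : ℝ)) * s = 1 := by
      rcases hs with rfl | rfl <;> norm_num
    rcases lt_trichotomy n 0 with hn | hn | hn
    · rw [if_neg (by omega)]
      obtain ⟨k, hk⟩ : ∃ k : ℕ, n = -((k : ℤ) + 1) := ⟨(-n - 1).toNat, by omega⟩
      have e1 : n.natAbs = k + 1 := by omega
      have e2 : (n + 1).natAbs = k := by omega
      have e3 : (n + -1).natAbs = k + 2 := by omega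
      rw [e1, e2, e3, hb]
      field_simp
      push_cast
      rcases hs with rfl | rfl <;> push_cast <;> ring
    · subst hn
      rw [if_pos rfl]
      simp only [Int.natAbs_zero, pow_zero, zero_add, Int.natAbs_one, pow_one, Int.natAbs_neg]
      rw [hb]
      field_simp
      rcases hs with rfl | rfl <;> push_cast <;> ring
    · rw [if_neg (by omega)]
      obtain ⟨k, hk⟩ : ∃ k : ℕ, n = ((k : ℤ) + 1) := ⟨(n - 1).toNat, by omega⟩
      have e1 : n.natAbs = k + 1 := by omega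
      have e2 : (n + 1).natAbs = k + 2 := by omega
      have e3 : (n + -1).natAbs = k := by omega
      rw [e1, e2, e3, hb]
      field_simp
      rcases hs with rfl | rfl <;> push_cast <;> ring

theorem Nz.symm {p : RO ℤ} (hp : Nz p) (k : ℤ) : p.coeff (-k) = p.coeff k := by
  have h1 : ∀ q : RO ℤ, (rsh q).coeff (-k) = q.coeff k := by
    intro q
    induction q using AddMonoidAlgebra.induction_linear with
    | zero => simp
    | add f g hf hg =>
      rw [map_add, AddMonoidAlgebra.coeff_add, AddMonoidAlgebra.coeff_add, Finsupp.add_apply,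
        Finsupp.add_apply, hf, hg]
    | single n c =>
      rw [H36.rsh_single, AddMonoidAlgebra.coeff_single, AddMonoidAlgebra.coeff_single,
        Finsupp.single_apply, Finsupp.single_apply]
      by_cases h : n = k
      · rw [if_pos h, if_pos (by omega)]; rfl
      · rw [if_neg h, if_neg (by omega)]
  have h2 := h1 p
  rw [hp.1] at h2
  exact h2

theorem Nz.coeff0 {p : RO ℤ} (hp : Nz p) : 0 ≤ p.coeff 0 := by
  have h1 := Am_nonneg hp (a := 0) (by norm_num)
  rw [Am_zero] at h1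
  exact_mod_cast h1

theorem Nz.abs_le {p : RO ℤ} (hp : Nz p) (k : ℤ) : |p.coeff k| ≤ p.coeff 0 := by
  have h1 := (hp.mul_wt (Or.inl rfl) k).coeff0
  have h2 := (hp.mul_wt (Or.inr rfl) k).coeff0
  rw [coeff_wt, zero_sub, zero_add, hp.symm] at h1 h2
  rw [_root_.abs_le]
  constructor <;> omega

theorem Nz.eq_zero {p : RO ℤ} (hp : Nz p) (h0 : p.coeff 0 = 0) : p = 0 := by
  ext k
  have h1 := hp.abs_le k
  rw [h0] at h1
  have h2 : p.coeff k = 0 := abs_eq_zero.mp (le_antisymm h1 (abs_nonneg _))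
  simpa using h2

theorem wt_ne (s m : ℤ) (hm : m ≠ 0) : wt s m ≠ 0 := by
  intro h
  have h1 : (1 * wt s m : RO ℤ).coeff 0 = 0 := by rw [h, mul_zero]; rfl
  rw [coeff_wt] at h1
  have e0 : (1 : RO ℤ).coeff 0 = 1 := by
    rw [AddMonoidAlgebra.one_def, AddMonoidAlgebra.coeff_single, Finsupp.single_apply, if_pos rfl]
  have e1 : ∀ k : ℤ, k ≠ 0 → (1 : RO ℤ).coeff k = 0 := by
    intro k hk
    rw [AddMonoidAlgebra.one_def, AddMonoidAlgebra.coeff_single, Finsupp.single_apply,
      if_neg (Ne.symm hk)]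
  rw [e0, e1 _ (by omega), e1 _ (by omega)] at h1
  omega

theorem Nz.abs_lt {p : RO ℤ} (hp : Nz p) (hne : p ≠ 0) {k : ℤ} (hk : k ≠ 0) :
    |p.coeff k| < p.coeff 0 := by
  refine lt_of_le_of_ne (hp.abs_le k) fun h => ?_
  have key : ∀ s : ℤ, (s = 1 ∨ s = -1) → p.coeff 0 + s * p.coeff k = 0 → False := by
    intro s hs h1
    have h2 : (p * wt s k).coeff 0 = 0 := by
      rw [coeff_wt, zero_sub, zero_add, hp.symm]
      linear_combination 2 * h1
    have h3 := (hp.mul_wt hs k).eq_zero h2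
    rcases mul_eq_zero.mp h3 with h4 | h4
    · exact hne h4
    · exact wt_ne s k hk h4
  rcases abs_cases (p.coeff k) with ⟨h1, -⟩ | ⟨h1, -⟩
  · exact key (-1) (Or.inr rfl) (by omega)
  · exact key 1 (Or.inl rfl) (by omega)

theorem Nz.pos {p : RO ℤ} (hp : Nz p) (hne : p ≠ 0) : 1 ≤ p.coeff 0 := by
  have h1 := hp.coeff0
  rcases h1.lt_or_eq with h2 | h2
  · omega
  · exact absurd (hp.eq_zero h2.symm) hne

/-- Harnack. -/
theorem Am_ge {p : RO ℤ} (hp : Nz p) {a b : ℝ} {s : ℤ} (hs : s = 1 ∨ s = -1) (ha : 0 ≤ a)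
    (ha1 : a < 1) (hb : b = s * a) : (1 - a) / (1 + a) * p.coeff 0 ≤ Am b p := by
  rw [Am_step p hs ha hb]
  have hab : |b| < 1 := by
    rw [hb, abs_mul, abs_of_nonneg ha]
    rcases hs with rfl | rfl <;> simpa using ha1
  have h1 := Am_nonneg (hp.mul_wt hs 1) hab
  have h2 : 0 ≤ a / (1 + a) ^ 2 := by positivity
  nlinarith [mul_nonneg h2 h1]

/-- Constant coefficient one. -/
theorem Nz.one {p : RO ℤ} (hp : Nz p) (h1 : p.coeff 0 = 1) (a : ℝ) : Am a p = 1 := by
  have hne : p ≠ 0 := by rintro rfl; simp at h1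
  have h2 : p = AddMonoidAlgebra.single 0 1 := by
    ext k
    rw [AddMonoidAlgebra.coeff_single, Finsupp.single_apply]
    by_cases hk : k = 0
    · subst hk; rw [if_pos rfl, h1]
    · rw [if_neg (Ne.symm hk)]
      have h3 := hp.abs_lt hne hk
      rw [h1] at h3
      have := abs_nonneg (p.coeff k)
      have h4 : |p.coeff k| = 0 := by omega
      exact abs_eq_zero.mp h4
  rw [h2, H18.Am_single]
  simp

/-- Constant coefficient two. -/
theorem Nz.two (hLin : E1.LinS) {p : RO ℤ} (hp : Nz p) (h2 : p.coeff 0 = 2) :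
    p = AddMonoidAlgebra.single 0 2 ∨ ∃ (m : ℤ) (e : ℤ), 0 < m ∧ (e = 1 ∨ e = -1) ∧ p = wt e m := by
  have hne : p ≠ 0 := by rintro rfl; simp at h2
  have hT : Npos (cst p : AO ℤ ℤ) := by
    refine ⟨by rw [H20.sharp_cst', hp.1], fun z u => ?_⟩
    rw [H31.Qp.ev_cst]
    exact hp.2 z
  have hc : (cst p : AO ℤ ℤ).coeff 0 = p := by simp [cst]
  have hrk : rk (supp (cst p : AO ℤ ℤ)) = 0 := by
    unfold rk
    have h3 : Submodule.span ℤ (supp (cst p : AO ℤ ℤ)) = ⊥ := by
      rw [Submodule.span_eq_bot]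
      intro a ha
      by_contra h4
      apply ha
      rw [cst, AddMonoidAlgebra.coeff_single, Finsupp.single_eq_of_ne h4]
    rw [h3]
    exact finrank_bot ℤ ℤ
  have hl := hLin ℤ (cst p) hT (by rw [hc, hrk, h2]; norm_num)
  rw [hc] at hl
  by_cases hex : ∃ m : ℤ, 0 < m ∧ p.coeff m ≠ 0
  · right
    obtain ⟨m, hm, hpm⟩ := hex
    refine ⟨m, p.coeff m, hm, ?_, ?_⟩
    · have h3 := (hl m m hm hm hpm hpm).2
      rcases abs_cases (p.coeff m) with ⟨h4, h5⟩ | ⟨h4, h5⟩ <;> omega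
    · ext k
      have e1 : (wt (p.coeff m) m).coeff k = (1 * wt (p.coeff m) m : RO ℤ).coeff k := by rw [one_mul]
      have e0 : ∀ j : ℤ, (1 : RO ℤ).coeff j = if 0 = j then 1 else 0 := by
        intro j
        rw [AddMonoidAlgebra.one_def, AddMonoidAlgebra.coeff_single, Finsupp.single_apply]
      rw [e1, coeff_wt, e0, e0, e0]
      have hz : ∀ j : ℤ, 0 < j → j ≠ m → p.coeff j = 0 := by
        intro j hj hjm
        by_contra h6
        exact hjm (hl j m hj hm h6 hpm).1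
      rcases lt_trichotomy k 0 with hk | hk | hk
      · rw [if_neg (by omega), if_neg (by omega), ← hp.symm]
        by_cases h6 : k = -m
        · rw [if_pos (by omega), h6, neg_neg]; ring
        · rw [if_neg (by omega), hz (-k) (by omega) (by omega)]; ring
      · subst hk
        rw [if_pos rfl, if_neg (by omega), if_neg (by omega), h2]; ring
      · rw [if_neg (by omega), if_neg (by omega : ¬ (0 = k + m))]
        by_cases h6 : k = m
        · rw [if_pos (by omega), h6]; ring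
        · rw [if_neg (by omega), hz k hk h6]; ring
  · left
    push Not at hex
    ext k
    rw [AddMonoidAlgebra.coeff_single, Finsupp.single_apply]
    rcases lt_trichotomy k 0 with hk | hk | hk
    · rw [if_neg (by omega), ← hp.symm, hex (-k) (by omega)]
    · subst hk; rw [if_pos rfl, h2]
    · rw [if_neg (by omega), hex k hk]

theorem Am_wt (e m : ℤ) (b : ℝ) : Am b (wt e m) = 2 + 2 * e * b ^ m.natAbs := by
  unfold wt
  rw [H18.Am_add, H18.Am_add, H18.Am_single, H18.Am_single, H18.Am_single, Int.natAbs_neg]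
  simp
  ring

theorem Am_two (hLin : E1.LinS) {p : RO ℤ} (hp : Nz p) (h2 : p.coeff 0 = 2) {a b : ℝ} {s : ℤ}
    (hs : s = 1 ∨ s = -1) (ha : 0 ≤ a) (ha1 : a < 1) (hb : b = s * a) : 2 - 2 * a ≤ Am b p := by
  have hab : |b| = a := by
    rw [hb, abs_mul, abs_of_nonneg ha]
    rcases hs with rfl | rfl <;> simp
  rcases hp.two hLin h2 with h3 | ⟨m, e, hm, he, h3⟩
  · rw [h3, H18.Am_single]; simp; linarith
  · rw [h3, Am_wt e m]
    have h4 : |b ^ m.natAbs| ≤ a := by
      rw [abs_pow, hab]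
      calc a ^ m.natAbs ≤ a ^ 1 := pow_le_pow_of_le_one ha ha1.le (by omega)
        _ = a := pow_one a
    obtain ⟨h5, h6⟩ := _root_.abs_le.mp h4
    rcases he with rfl | rfl
    · push_cast; linarith
    · push_cast; linarith

/-- Constant coefficient two and a zero at `-s`. -/
theorem Am_two' (hLin : E1.LinS) {p : RO ℤ} (hp : Nz p) {a b : ℝ} {s : ℤ} (hs : s = 1 ∨ s = -1) (ha : 0 ≤ a) (ha1 : a < 1) (hb : b = s * a)
    (h3 : (p * wt s 1).coeff 0 = 2) : 2 - 2 * a ^ 2 ≤ Am b (p * wt s 1) := by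
  have hab : |b| = a := by
    rw [hb, abs_mul, abs_of_nonneg ha]
    rcases hs with rfl | rfl <;> simp
  obtain ⟨z, hz⟩ : ∃ z : Circle, (z : ℂ) = -(s : ℂ) := by
    rcases hs with rfl | rfl
    · exact ⟨⟨-1, by simp [Submonoid.unitSphere]⟩, by simp⟩
    · exact ⟨1, by simp⟩
  have hz0 : evR z (p * wt s 1) = 0 := by
    rw [map_mul, evR_wt, zpow_one, hz]
    rcases hs with rfl | rfl <;> simp
  rcases (hp.mul_wt hs 1).two hLin h3 with h4 | ⟨m, e, hm, he, h4⟩
  · rw [h4, H36.evR_single, emb_int] at hz0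
    norm_num at hz0
  · rw [h4, Am_wt e m]
    rw [h4, evR_wt, hz] at hz0
    have h5 : 1 + (e : ℝ) * ((-(s : ℂ)) ^ m).re = 0 := by
      have h6 : (2 + (e : ℝ) * (2 * ((-(s : ℂ)) ^ m).re)) = 0 := by exact_mod_cast hz0
      linarith
    rcases (by omega : m = 1 ∨ 2 ≤ m) with hm1 | hm2
    · subst hm1
      rw [zpow_one] at h5
      have h6 : (e : ℝ) * s = 1 := by
        have h7 : (-(s : ℂ)).re = -(s : ℝ) := by simp
        rw [h7] at h5
        linarith
      have h8 : (1 : ℤ).natAbs = 1 := rfl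
      rw [h8, pow_one, hb]
      have h9 : 2 * (e : ℝ) * (s * a) = 2 * a := by
        linear_combination 2 * a * h6
      rw [h9]
      nlinarith
    · have h4 : |b ^ m.natAbs| ≤ a ^ 2 := by
        rw [abs_pow, hab]
        exact pow_le_pow_of_le_one ha ha1.le (by omega)
      obtain ⟨h5, h6⟩ := _root_.abs_le.mp h4
      rcases he with rfl | rfl
      · push_cast; linarith
      · push_cast; linarith

/-- The numerical heart: `p` nonnegative, `p_0 + m` odd. -/
theorem key (hLin : E1.LinS) {p : RO ℤ} (hp : Nz p) (hne : p ≠ 0) {m : ℕ} {t : ℤ}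
    (hpar : p.coeff 0 + m = 2 * t - 1) {a b : ℝ} {s : ℤ} (hs : s = 1 ∨ s = -1) (ha : 1 < a ^ 2 + a)
    (ha0 : 0 < a) (ha1 : a < 1) (hb : b = s * a) :
    2 * (1 / a - a) < 1 + Am b p + (1 - a) / (1 + a) * m := by
  have h1a : 0 < 1 + a := by linarith
  have hq0 : 0 ≤ (1 - a) / (1 + a) := div_nonneg (by linarith) h1a.le
  have hm0 : (0 : ℝ) ≤ (m : ℝ) := Nat.cast_nonneg m
  have hqm : 0 ≤ (1 - a) / (1 + a) * (m : ℝ) := mul_nonneg hq0 hm0
  have hA := Am_ge hp hs ha0.le ha1 hb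
  have hp1 := hp.pos hne
  have ha618 : (618 : ℝ) / 1000 < a := by nlinarith
  by_cases h5 : 5 ≤ p.coeff 0 + m
  · have h6 : (5 : ℝ) ≤ (p.coeff 0 : ℝ) + m := by exact_mod_cast h5
    have h7 : (1 - a) / (1 + a) * 5 ≤ (1 - a) / (1 + a) * ((p.coeff 0 : ℝ) + m) :=
      mul_le_mul_of_nonneg_left h6 hq0
    have h8 : 2 * (1 / a - a) < 1 + (1 - a) / (1 + a) * 5 := by
      rw [← sub_pos]
      have h9 : 1 + (1 - a) / (1 + a) * 5 - 2 * (1 / a - a) =
          2 * (a ^ 3 - a ^ 2 + 2 * a - 1) / (a * (1 + a)) + 0 := by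
        field_simp
        ring
      rw [h9, add_zero]
      apply div_pos _ (by positivity)
      nlinarith [sq_nonneg a, mul_pos ha0 ha0]
    linarith
  push Not at h5
  have hcases : p.coeff 0 = 1 ∨ (p.coeff 0 = 2 ∧ 1 ≤ m) ∨ (p.coeff 0 = 3 ∧ m = 0) := by omega
  rcases hcases with h1 | ⟨h2, hm1⟩ | ⟨h3, hm⟩
  · rw [hp.one h1]
    have h6 : 1 / a - a < 1 := by
      rw [sub_lt_iff_lt_add, div_lt_iff₀ ha0]
      nlinarith
    linarith
  · have h4 := Am_two hLin hp h2 hs ha0.le ha1 hb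
    have hm1' : (1 : ℝ) ≤ m := by exact_mod_cast hm1
    have h7 : (1 - a) / (1 + a) * 1 ≤ (1 - a) / (1 + a) * (m : ℝ) :=
      mul_le_mul_of_nonneg_left hm1' hq0
    have h8 : 2 * (1 / a - a) < 1 + (2 - 2 * a) + (1 - a) / (1 + a) * 1 := by
      rw [← sub_pos]
      have h9 : 1 + (2 - 2 * a) + (1 - a) / (1 + a) * 1 - 2 * (1 / a - a) =
          2 * (a ^ 2 + a - 1) / (a * (1 + a)) := by
        field_simp
        ring
      rw [h9]
      apply div_pos _ (by positivity)
      linarith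
    linarith
  · have hst := Am_step p hs ha0.le hb
    have hp' := hp.mul_wt hs 1
    have hk0 : 0 ≤ a / (1 + a) ^ 2 := by positivity
    have hc1 : (p * wt s 1).coeff 0 = 6 + 2 * (s * p.coeff 1) := by
      rw [coeff_wt, zero_sub, zero_add, hp.symm, h3]; ring
    have hs1 : |s * p.coeff 1| < 3 := by
      have h4 := hp.abs_lt hne (k := 1) one_ne_zero
      rw [h3] at h4
      rcases hs with rfl | rfl
      · rwa [one_mul]
      · rwa [neg_one_mul, abs_neg]
    obtain ⟨x, hx⟩ : ∃ x : ℤ, x = s * p.coeff 1 := ⟨_, rfl⟩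
    rw [← hx] at hc1 hs1
    obtain ⟨hs2, hs3⟩ := _root_.abs_lt.mp hs1
    have hqq : (p.coeff 0 : ℝ) = 3 := by exact_mod_cast h3
    rw [hst, hqq]
    have hmz : (m : ℝ) = 0 := by rw [hm]; norm_num
    rw [hmz, mul_zero, add_zero]
    rcases (by omega : x = -2 ∨ x = -1 ∨ 0 ≤ x) with hx2 | hx1 | hx0
    · have h4 := Am_two' hLin hp hs ha0.le ha1 hb (by rw [hc1, hx2]; norm_num)
      have h6 : a / (1 + a) ^ 2 * (2 - 2 * a ^ 2) ≤ a / (1 + a) ^ 2 * Am b (p * wt s 1) :=
        mul_le_mul_of_nonneg_left h4 hk0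
      have h8 : 2 * (1 / a - a) < 1 + ((1 - a) / (1 + a) * 3 + a / (1 + a) ^ 2 * (2 - 2 * a ^ 2)) := by
        rw [← sub_pos]
        have h9 : 1 + ((1 - a) / (1 + a) * 3 + a / (1 + a) ^ 2 * (2 - 2 * a ^ 2)) -
            2 * (1 / a - a) = 2 * (a ^ 2 + a - 1) / (a * (1 + a)) := by
          field_simp
          ring
        rw [h9]
        apply div_pos _ (by positivity)
        linarith
      linarith
    · have hst2 := Am_step (p * wt s 1) hs ha0.le hb
      have hp'' := hp'.mul_wt hs 1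
      have hA'' := Am_ge hp'' hs ha0.le ha1 hb
      have hc2 : ((p * wt s 1) * wt s 1).coeff 0 = 10 + 2 * p.coeff 2 := by
        rw [coeff_wt, zero_sub, zero_add, hp'.symm, hc1, hx1, coeff_wt]
        have hss : s * s = 1 := by rcases hs with rfl | rfl <;> norm_num
        have e1 : (1 : ℤ) - 1 = 0 := rfl
        have e2 : (1 : ℤ) + 1 = 2 := rfl
        rw [e1, e2, h3]
        linear_combination -4 * hx + (2 * (3 + p.coeff 2)) * hss + 4 * hx1
      have h2' : -3 < p.coeff 2 := by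
        have h4 := hp.abs_lt hne (k := 2) two_ne_zero
        rw [h3] at h4
        exact (_root_.abs_lt.mp h4).1
      have h6 : (6 : ℝ) ≤ (((p * wt s 1) * wt s 1).coeff 0 : ℝ) := by
        rw [hc2]
        exact_mod_cast (by omega : (6 : ℤ) ≤ 10 + 2 * p.coeff 2)
      have h7 : (1 - a) / (1 + a) * 6 ≤ Am b ((p * wt s 1) * wt s 1) :=
        (mul_le_mul_of_nonneg_left h6 hq0).trans hA''
      have h4' : (((p * wt s 1).coeff 0 : ℤ) : ℝ) = 4 := by rw [hc1, hx1]; norm_num
      rw [h4'] at hst2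
      have h8 : a / (1 + a) ^ 2 * ((1 - a) / (1 + a) * 4 + a / (1 + a) ^ 2 * ((1 - a) / (1 + a) * 6)) ≤
          a / (1 + a) ^ 2 * Am b (p * wt s 1) := by
        apply mul_le_mul_of_nonneg_left _ hk0
        rw [hst2]
        have := mul_le_mul_of_nonneg_left h7 hk0
        linarith
      have h9 : 2 * (1 / a - a) < 1 + ((1 - a) / (1 + a) * 3 +
          a / (1 + a) ^ 2 * ((1 - a) / (1 + a) * 4 + a / (1 + a) ^ 2 * ((1 - a) / (1 + a) * 6))) := by
        rw [← sub_pos]
        have h10 : 1 + ((1 - a) / (1 + a) * 3 +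
          a / (1 + a) ^ 2 * ((1 - a) / (1 + a) * 4 + a / (1 + a) ^ 2 * ((1 - a) / (1 + a) * 6))) -
            2 * (1 / a - a) = (a * (1 - a) * (3 * (1 + a) ^ 4 + 4 * a * (1 + a) ^ 2 + 6 * a ^ 2) +
              (a - 2 + 2 * a ^ 2) * (1 + a) ^ 5) / (a * (1 + a) ^ 5) := by
          field_simp
          ring
        rw [h10]
        apply div_pos _ (by positivity)
        obtain ⟨u, hu⟩ : ∃ u, a = 618 / 1000 + u := ⟨a - 618 / 1000, by ring⟩
        have hu0 : 0 < u := by linarith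
        have hu1 : u < 382 / 1000 := by linarith
        rw [hu]
        ring_nf
        nlinarith [pow_pos hu0 2, pow_pos hu0 3, pow_pos hu0 4, pow_pos hu0 5, pow_pos hu0 6,
          pow_pos hu0 7]
      linarith
    · have hA' := Am_ge hp' hs ha0.le ha1 hb
      have h6 : (6 : ℝ) ≤ ((p * wt s 1).coeff 0 : ℝ) := by
        rw [hc1]
        exact_mod_cast (by omega : (6 : ℤ) ≤ 6 + 2 * x)
      have h7 : (1 - a) / (1 + a) * 6 ≤ Am b (p * wt s 1) :=
        (mul_le_mul_of_nonneg_left h6 hq0).trans hA'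
      have h8 : a / (1 + a) ^ 2 * ((1 - a) / (1 + a) * 6) ≤ a / (1 + a) ^ 2 * Am b (p * wt s 1) :=
        mul_le_mul_of_nonneg_left h7 hk0
      have h9 : 2 * (1 / a - a) < 1 + ((1 - a) / (1 + a) * 3 +
          a / (1 + a) ^ 2 * ((1 - a) / (1 + a) * 6)) := by
        rw [← sub_pos]
        have h10 : 1 + ((1 - a) / (1 + a) * 3 + a / (1 + a) ^ 2 * ((1 - a) / (1 + a) * 6)) -
            2 * (1 / a - a) = (a * (1 - a) * (3 * (1 + a) ^ 2 + 6 * a) +
              (a - 2 + 2 * a ^ 2) * (1 + a) ^ 3) / (a * (1 + a) ^ 3) := by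
          field_simp
          ring
        rw [h10]
        apply div_pos _ (by positivity)
        obtain ⟨u, hu⟩ : ∃ u, a = 618 / 1000 + u := ⟨a - 618 / 1000, by ring⟩
        have hu0 : 0 < u := by linarith
        have hu1 : u < 382 / 1000 := by linarith
        rw [hu]
        ring_nf
        nlinarith [pow_pos hu0 2, pow_pos hu0 3, pow_pos hu0 4, pow_pos hu0 5]
      linarith

end Pool.Agent.B5.H12
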