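import Pool.Agent.Lib.MP_b5021c_nt.E.H12.B2
import Pool.Agent.Lib.MP_b5021c_nt.IfaceL1

/-!
# MP_b5021c_nt, all theta: rank at least two implies `1 ≤ θ - 1/θ` (helper12), DD form
-/

namespace Pool.Agent.B5.H12

open scoped LaurentPolynomial
open Polynomial Pool.Agent.B5 Pool.Agent.B5.Nr

/-- The load of type A over `ℤ`, `θ ≤ 2`. -/
theorem loadA (hPCZ : PCZS) (hVZ : VZS) {θ : ℝ} {Q F : RO ℤ} (hP : ClassP θ Q) (hθ2 : θ ≤ 2)
    (hF : F ≠ 0) (hQ0 : ∀ z : Circle, evR z Q ≠ 0) (hle : ∀ z : Circle, ‖evR z F‖ ≤ ‖evR z Q‖)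
    (hne : ∃ z : Circle, ‖evR z F‖ ≠ ‖evR z Q‖) :
    ∃ (eta : (RO ℤ)ˣ) (N' : ℕ), 1 ≤ N' ∧ TypA N' Q (Q + (eta : RO ℤ) * F) := by
  obtain ⟨hθ, n, q, hQ, hq0, w, hw, hroots⟩ := hP
  obtain ⟨k, f, hFf, hf0⟩ := H40.exists_normal F hF
  obtain ⟨qc, hqc⟩ : ∃ qc : ℂ[X], qc = q.map (Coef.emb : ℤ →+* ℂ) := ⟨_, rfl⟩
  obtain ⟨fc, hfc⟩ : ∃ fc : ℂ[X], fc = f.map (Coef.emb : ℤ →+* ℂ) := ⟨_, rfl⟩
  have hcir : ∀ z : ℂ, ‖z‖ = 1 → ∃ zc : Circle, (zc : ℂ) = z := fun z hz =>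
    ⟨⟨z, mem_sphere_zero_iff_norm.mpr hz⟩, rfl⟩
  have hnQ : ∀ z : Circle, ‖evR z Q‖ = ‖qc.eval (z : ℂ)‖ := fun z => by
    rw [hQ, H40.norm_evR, hqc]
  have hnF : ∀ z : Circle, ‖evR z F‖ = ‖fc.eval (z : ℂ)‖ := fun z => by
    rw [hFf, H40.norm_evR, hfc]
  have hnq : ∀ z : ℂ, ‖z‖ = 1 → qc.eval z ≠ 0 := by
    intro z hz h0
    obtain ⟨zc, rfl⟩ := hcir z hz
    apply hQ0 zc
    rw [← norm_eq_zero, hnQ, h0, norm_zero]
  have hlc : ∀ z : ℂ, ‖z‖ = 1 → ‖fc.eval z‖ ≤ ‖qc.eval z‖ := by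
    intro z hz
    obtain ⟨zc, rfl⟩ := hcir z hz
    rw [← hnQ, ← hnF]
    exact hle zc
  obtain ⟨z1, hz1⟩ := hne
  rw [hnQ, hnF] at hz1
  rw [← hqc] at hroots
  have hwpos : 0 < ‖w‖ := by rw [hw]; positivity
  have hw0 : w ≠ 0 := norm_pos_iff.mp hwpos
  have hw1 : ‖w‖ < 1 := by rw [hw]; exact inv_lt_one_of_one_lt₀ hθ
  have hqne : qc ≠ 0 := by
    intro h
    exact hnq 1 (by simp) (by rw [h, eval_zero])
  have hq0c : ‖qc.eval 0‖ = 1 := by
    rw [hqc, ← coeff_zero_eq_eval_zero, coeff_map]; exact hq0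
  obtain ⟨s, hs, hs0⟩ := H40.one_zero_factor qc w hqne hw0 hroots hnq
  have hsq : ‖s.eval 0‖ = 1 := by
    rw [← hq0c, hs]; simp
  -- the value of `f` at zero
  have hkey := hVZ (C w⁻¹ * (1 - C ((starRingEnd ℂ) w) * X) * s) fc (by
      intro z hz h0
      rw [eval_mul, eval_mul, eval_C, mul_eq_zero, mul_eq_zero] at h0
      rcases h0 with (h0 | h0) | h0
      · exact inv_ne_zero hw0 h0
      · rw [eval_sub, eval_one, eval_mul, eval_C, eval_X, sub_eq_zero] at h0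
        have h1 : ‖(starRingEnd ℂ) w * z‖ = 1 := by rw [← h0, norm_one]
        rw [norm_mul, RCLike.norm_conj] at h1
        have h2 : ‖w‖ * ‖z‖ ≤ ‖w‖ * 1 := mul_le_mul_of_nonneg_left hz hwpos.le
        linarith
      · exact hs0 z hz h0)
  have hcn : ∀ z : ℂ, ‖z‖ = 1 →
      ‖(C w⁻¹ * (1 - C ((starRingEnd ℂ) w) * X) * s).eval z‖ = ‖qc.eval z‖ := by
    intro z hz
    have hz0 : z ≠ 0 := by rintro rfl; simp at hz
    rw [hs, eval_mul, eval_mul, eval_mul, eval_C, norm_mul, norm_mul, norm_mul]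
    congr 1
    rw [eval_sub, eval_one, eval_mul, eval_C, eval_X, eval_sub, eval_one, eval_mul, eval_C, eval_X]
    have h1 : (1 - w⁻¹ * z : ℂ) = w⁻¹ * (w - z) := by
      rw [mul_sub, inv_mul_cancel₀ hw0]
    have h2 : (1 - (starRingEnd ℂ) w * z : ℂ) = z * (starRingEnd ℂ) (z - w) := by
      rw [map_sub, mul_sub, Complex.mul_conj, Complex.normSq_eq_norm_sq, hz]
      simp [mul_comm]
    rw [h1, h2, norm_mul, norm_mul, RCLike.norm_conj, hz, one_mul, norm_sub_rev]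
  have hf1 := hkey (fun z hz => by rw [hcn z hz]; exact hlc z hz)
    ⟨z1, Circle.norm_coe z1, by rw [hcn _ (Circle.norm_coe z1)]; exact hz1⟩ 0 (by simp)
  have hfθ : |(f.coeff 0 : ℝ)| < 2 := by
    have h1 : ‖fc.eval 0‖ = |(f.coeff 0 : ℝ)| := by
      rw [hfc, ← coeff_zero_eq_eval_zero, coeff_map, emb_int, Complex.norm_intCast]
    rw [← h1]
    refine hf1.trans_le ?_
    rw [eval_mul, eval_mul, eval_C, norm_mul, norm_mul, hsq, norm_inv, hw, inv_inv]
    simpa using hθ2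
  have hfu : f.coeff 0 = 1 ∨ f.coeff 0 = -1 := by
    have h1 : |f.coeff 0| < 2 := by exact_mod_cast hfθ
    have := _root_.abs_lt.mp h1
    omega
  have hqu : q.coeff 0 = 1 ∨ q.coeff 0 = -1 := by
    rw [emb_int, Complex.norm_intCast] at hq0
    have h1 : |q.coeff 0| = 1 := by exact_mod_cast hq0
    exact eq_or_eq_neg_of_abs_eq h1
  obtain ⟨u, hu⟩ : ∃ u : ℤˣ, (u : ℤ) = -(q.coeff 0 * f.coeff 0) := by
    rcases hfu with h1 | h1 <;> rcases hqu with h2 | h2 <;> rw [h1, h2]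
    · exact ⟨-1, by simp⟩
    · exact ⟨1, by simp⟩
    · exact ⟨1, by simp⟩
    · exact ⟨-1, by simp⟩
  have hff : f.coeff 0 * f.coeff 0 = 1 := by rcases hfu with h1 | h1 <;> rw [h1] <;> norm_num
  have hun : ‖(Coef.emb (u : ℤ) : ℂ)‖ = 1 := by
    rw [emb_int, Complex.norm_intCast]
    rcases Int.units_eq_one_or u with h | h <;> rw [h] <;> simp
  obtain ⟨V, hV⟩ : ∃ V : ℤ[X], V = q + C (u : ℤ) * X ^ 0 * f := ⟨_, rfl⟩
  have hQV : Q + ((H40.uT u (n - k + (0 : ℕ)) : (RO ℤ)ˣ) : RO ℤ) * F =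
      LaurentPolynomial.T n * toLaurent V := by
    rw [hQ, hFf, H40.add_load, hV]
  have hVc : V.map (Coef.emb : ℤ →+* ℂ) = qc + C (Coef.emb (u : ℤ)) * fc := by
    rw [hV, pow_zero, mul_one, Polynomial.map_add, Polynomial.map_mul, map_C, hqc, hfc]
  have hVne : qc + C (Coef.emb (u : ℤ)) * fc ≠ 0 := by
    intro h1
    apply hz1
    have h2 : qc.eval (z1 : ℂ) = -(Coef.emb (u : ℤ) * fc.eval (z1 : ℂ)) := by
      have h3 := congrArg (eval (z1 : ℂ)) h1
      rw [eval_add, eval_mul, eval_C, eval_zero] at h3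
      exact eq_neg_of_add_eq_zero_left h3
    rw [h2, norm_neg, norm_mul, hun, one_mul]
  have hcard := hPCZ w qc (C (Coef.emb (u : ℤ)) * fc) hroots hnq (by
      intro z hz
      rw [eval_mul, eval_C, norm_mul, hun, one_mul]
      exact hlc z hz) hVne
  rw [← hVc] at hVne hcard
  have hV0 : V.coeff 0 = 0 := by
    rw [hV, pow_zero, mul_one, coeff_add, coeff_C_mul, hu]
    linear_combination -(q.coeff 0) * hff
  obtain ⟨E, hE⟩ := X_dvd_iff.mpr hV0
  obtain ⟨Ec, hEc⟩ : ∃ Ec : ℂ[X], Ec = E.map (Coef.emb : ℤ →+* ℂ) := ⟨_, rfl⟩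
  have hmap : V.map (Coef.emb : ℤ →+* ℂ) = X * Ec := by
    rw [hE, Polynomial.map_mul, map_X, hEc]
  rw [hmap] at hVne hcard
  have hEne : Ec ≠ 0 := by
    rintro h1
    rw [h1, mul_zero] at hVne
    exact hVne rfl
  have hEz : ∀ z : ℂ, ‖z‖ < 1 → Ec.eval z ≠ 0 := by
    intro z hz h1
    rw [roots_mul hVne, roots_X, Multiset.filter_add, Multiset.card_add] at hcard
    have h2 : 0 < (Ec.roots.filter (fun x => ‖x‖ < 1)).card := by
      apply Multiset.card_pos_iff_exists_mem.mpr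
      refine ⟨z, ?_⟩
      rw [Multiset.mem_filter]
      exact ⟨(mem_roots hEne).mpr h1, hz⟩
    have h3 : (({0} : Multiset ℂ).filter (fun x => ‖x‖ < 1)).card = 1 := by
      rw [Multiset.filter_eq_self.mpr, Multiset.card_singleton]
      intro a ha
      rw [Multiset.mem_singleton] at ha
      rw [ha, norm_zero]
      exact one_pos
    omega
  have hE0 : (E.coeff 0 : ℂ) = Ec.eval 0 := by
    rw [hEc, ← coeff_zero_eq_eval_zero, coeff_map, emb_int]
  have hEc0 : E.coeff 0 ≠ 0 := by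
    intro h1
    have h2 := hEz 0 (by simp)
    rw [← hE0, h1] at h2
    exact h2 (by simp)
  refine ⟨H40.uT u (n - k + (0 : ℕ)), (E.coeff 0).natAbs, by omega, n, q, E, hQ, ?_, hq0, ?_, ?_⟩
  · rw [hQV, hE, map_mul, toLaurent_X, LaurentPolynomial.T_add, mul_assoc]
  · rw [emb_int, Complex.norm_intCast, Nat.cast_natAbs, Int.cast_abs]
  · intro z hz
    rw [← hEc]
    exact hEz z hz

/-- An element of `DD` over `ℤ` of class `P(θ)` and rank at least two has `1 ≤ θ - 1/θ`. -/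
def B2S : Prop := ∀ (P L : Type) [Fintype P] [DecidableEq P] [AddCommGroup L] [Module.Free ℤ L]
  [Module.Finite ℤ L] (phi : L →+ (P → ℤ)) (D : AO ℤ L) (θ : ℝ),
    DD phi D → 2 ≤ Module.finrank ℤ L → ClassP θ (D.coeff 0) → 1 ≤ θ - θ⁻¹

theorem b2 (hPCZ : PCZS) (hVZ : VZS) (hTrm : TrmS) (hPsz : PszRS) (hPsr : PsrS) (hE2 : E2S)
    (hEv : EvRS) (hZf : ZfinS) (hLin : E1.LinS) : B2S := by
  intro P L _ _ _ _ _ phi D θ hDD hrk hP
  obtain ⟨hEv1, hEv2, hEv3, hEv4⟩ := hEv ℤ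
  obtain ⟨hQ0, -, -, -, hsp, hray⟩ := hE2 ℤ P L phi D hDD hrk
  by_contra hcon
  push Not at hcon
  have hθ1 : 1 < θ := hP.1
  have hθ0 : (0 : ℝ) < θ := by linarith
  have hθ2 : θ ≤ 2 := by
    by_contra h
    push Not at h
    have h1 : θ⁻¹ ≤ 1 := inv_le_one_of_one_le₀ hθ1.le
    linarith
  obtain ⟨S, hS⟩ : ∃ S, Ray D S := by
    by_contra hno
    push Not at hno
    have h4 : {b | Ray D b} = (∅ : Set L) := by
      ext b
      simp [hno b]
    rw [h4] at hsp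
    have h5 : rk (∅ : Set L) = 0 := by
      unfold rk
      simp
    omega
  obtain ⟨hle, hne⟩ := hray S hS
  obtain ⟨eta, N', hN1, hA⟩ := loadA hPCZ hVZ hP hθ2 hS.1 hQ0 hle hne
  have hVQ : ∀ z : Circle,
      ‖evR z (D.coeff 0 + (eta : RO ℤ) * D.coeff S - D.coeff 0)‖ ≤ ‖evR z (D.coeff 0)‖ := by
    intro z
    have h1 : D.coeff 0 + (eta : RO ℤ) * D.coeff S - D.coeff 0 = (eta : RO ℤ) * D.coeff S := by ring
    rw [h1, map_mul, norm_mul, hEv2 z _ eta.isUnit, one_mul]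
    exact hle z
  have hN1' : (1 : ℝ) ≤ (N' : ℝ) := by exact_mod_cast hN1
  -- N' = 1
  have hN : N' = 1 := by
    obtain ⟨a, ha, hci, hpsr⟩ := hPsr ℤ θ N' _ _ hP hQ0 hN1' hA hVQ
    have hpos : 0 ≤ Real.circleAverage (fun z => (1 - ‖a‖ ^ 2) / ‖z - a‖ ^ 2 *
        (2 * (evL z (D.coeff 0) / evL z (D.coeff 0 + (eta : RO ℤ) * D.coeff S)).re - 1)) 0 1 := by
      have hVne : (D.coeff 0 + (eta : RO ℤ) * D.coeff S) ≠ 0 := by
        intro h0
        obtain ⟨z, hz⟩ := hne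
        apply hz
        have h1 : evR z (D.coeff 0 + (eta : RO ℤ) * D.coeff S) = 0 := by rw [h0, map_zero]
        rw [map_add, map_mul] at h1
        have h2 : ‖evR z (D.coeff 0)‖ = ‖evR z (eta : RO ℤ) * evR z (D.coeff S)‖ := by
          rw [eq_neg_of_add_eq_zero_left h1, norm_neg]
        rw [h2, norm_mul, hEv2 z _ eta.isUnit, one_mul]
      have hEfin : (((fun z : Circle => (z : ℂ)) ''
          {z : Circle | evR z (D.coeff 0 + (eta : RO ℤ) * D.coeff S) = 0}) : Set ℂ).Finite :=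
        (hZf ℤ _ hVne).image _
      have h1 : Real.circleAverage (fun z => (1 - ‖a‖ ^ 2) / ‖z - a‖ ^ 2 *
          (2 * (evL z (D.coeff 0) / evL z (D.coeff 0 + (eta : RO ℤ) * D.coeff S)).re - 1)) 0 1 =
          Real.circleAverage (fun z => max 0 ((1 - ‖a‖ ^ 2) / ‖z - a‖ ^ 2 *
          (2 * (evL z (D.coeff 0) / evL z (D.coeff 0 + (eta : RO ℤ) * D.coeff S)).re - 1))) 0 1 := by
        apply H27.ca_congr_fin hEfin
        intro z hz hzE
        obtain ⟨zc, rfl⟩ : ∃ zc : Circle, (zc : ℂ) = z := ⟨⟨z, mem_sphere_zero_iff_norm.mpr hz⟩, rfl⟩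
        rw [max_eq_right]
        have ha1 : ‖a‖ < 1 := by rw [ha]; exact inv_lt_one_of_one_lt₀ hθ1
        refine mul_nonneg (div_nonneg ?_ (sq_nonneg _)) ?_
        · nlinarith [norm_nonneg a]
        · rw [hEv1, hEv1]
          have hV0 : evR zc (D.coeff 0 + (eta : RO ℤ) * D.coeff S) ≠ 0 := fun h => hzE ⟨zc, h, rfl⟩
          have h2 := hVQ zc
          rw [map_sub] at h2
          obtain ⟨x, hx⟩ : ∃ x, x = evR zc (D.coeff 0) := ⟨_, rfl⟩
          obtain ⟨v, hv⟩ : ∃ v, v = evR zc (D.coeff 0 + (eta : RO ℤ) * D.coeff S) := ⟨_, rfl⟩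
          rw [← hx, ← hv] at h2
          rw [← hv] at hV0
          rw [← hx, ← hv]
          -- |v - x| ≤ |x| means 2 Re (x/v) ≥ 1
          have hv2 : 0 < Complex.normSq v := Complex.normSq_pos.mpr hV0
          have h3 : Complex.normSq (v - x) ≤ Complex.normSq x := by
            rw [Complex.normSq_eq_norm_sq, Complex.normSq_eq_norm_sq]
            exact pow_le_pow_left₀ (norm_nonneg _) h2 2
          have h4 : (x / v).re = (x * (starRingEnd ℂ) v).re / Complex.normSq v := by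
            rw [Complex.div_re, Complex.mul_re, Complex.conj_re, Complex.conj_im]
            field_simp
            ring
          rw [h4]
          have h5 : Complex.normSq v ≤ 2 * (x * (starRingEnd ℂ) v).re := by
            rw [Complex.normSq_sub] at h3
            have h6 : (v * (starRingEnd ℂ) x).re = (x * (starRingEnd ℂ) v).re := by
              simp [Complex.mul_re]; ring
            rw [h6] at h3
            linarith
          have h7 : 1 ≤ 2 * ((x * (starRingEnd ℂ) v).re / Complex.normSq v) := by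
            rw [mul_div_assoc', le_div_iff₀ hv2]
            linarith
          linarith
      rw [h1]
      exact Real.circleAverage_nonneg_of_nonneg (fun z _ => le_max_left _ _)
    have h1 : (N' : ℝ) ≤ 2 * (θ - θ⁻¹) := by nlinarith
    have h2 : (N' : ℝ) < 2 := by linarith
    have h3 : N' < 2 := by exact_mod_cast h2
    omega
  subst hN
  have hA' : TypA 1 (D.coeff 0) (D.coeff 0 + (eta : RO ℤ) * D.coeff S) := by
    have := hA
    rwa [Nat.cast_one] at this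
  obtain ⟨i0, n, f, T, hT0, hTn, hrank, hsum⟩ := hTrm ℤ P L phi D S eta θ hDD hrk hS hP hA'
  have hrs : rsh (∑ i, (T i).coeff 0) = ∑ i, (T i).coeff 0 := by
    rw [map_sum]
    exact Finset.sum_congr rfl fun i _ => H65.rsh_coeff0 (T i) (hTn i).1
  obtain ⟨a, m, t, ha, hpar, hmain⟩ := hPsz θ _ _ (∑ i, (T i).coeff 0) hP hQ0 hA' hVQ hrs hsum
  have haa : |a| < 1 := by rw [ha]; exact inv_lt_one_of_one_lt₀ hθ1
  rw [H18.Am_pmn a haa] at hmain
  have hNi : ∀ i, Nz ((T i).coeff 0) := by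
    intro i
    refine ⟨H65.rsh_coeff0 (T i) (hTn i).1, fun z => ?_⟩
    obtain ⟨α, -, hα⟩ := E1.flagsT (hT0 i) (hTn i)
    exact (Finset.sum_nonneg fun j _ => norm_nonneg _).trans (hα z)
  have hni : ∀ i, (T i).coeff 0 ≠ 0 := by
    intro i h0
    obtain ⟨α, hα0, hα⟩ := E1.flagsT (hT0 i) (hTn i)
    have h1 : {z : Circle | evR z ((T i).coeff (α 0)) = 0}.Finite := hZf ℤ _ (hα0 0)
    have h2 : {z : Circle | evR z ((T i).coeff (α 0)) = 0} = Set.univ := by
      apply Set.eq_univ_of_forall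
      intro z
      have h3 := hα z
      rw [h0, map_zero, Complex.zero_re] at h3
      have h4 : ‖evR z ((T i).coeff (α 0))‖ ≤ ∑ j, ‖evR z ((T i).coeff (α j))‖ :=
        Finset.single_le_sum (f := fun j => ‖evR z ((T i).coeff (α j))‖)
          (fun j _ => norm_nonneg _) (Finset.mem_univ 0)
      exact norm_eq_zero.mp (le_antisymm (h4.trans h3) (norm_nonneg _))
    rw [h2] at h1
    have := H71.circle_inf
    exact Set.infinite_univ h1
  have hNr : Nz (∑ i, (T i).coeff 0) := by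
    refine ⟨hrs, fun z => ?_⟩
    rw [map_sum, Complex.re_sum]
    exact Finset.sum_nonneg fun i _ => (hNi i).2 z
  have hr1 : 1 ≤ (∑ i, (T i).coeff 0).coeff 0 := by
    have hn : 0 < n := by
      rcases Nat.eq_zero_or_pos n with h | h
      · subst h
        rw [Finset.univ_eq_empty, Finset.sum_empty] at hrank
        omega
      · exact h
    have h1 : (∑ i, (T i).coeff 0).coeff 0 = ∑ i, ((T i).coeff 0).coeff 0 := by simp
    rw [h1]
    calc (1 : ℤ) ≤ ((T ⟨0, hn⟩).coeff 0).coeff 0 := (hNi _).pos (hni _)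
      _ ≤ _ := Finset.single_le_sum (f := fun i => ((T i).coeff 0).coeff 0)
          (fun i _ => (hNi i).coeff0) (Finset.mem_univ _)
  have hrne : (∑ i, (T i).coeff 0) ≠ 0 := by
    intro h
    rw [h] at hr1
    simp at hr1
  have ha0 : 0 < |a| := by rw [ha]; positivity
  obtain ⟨s, hs, hb⟩ : ∃ s : ℤ, (s = 1 ∨ s = -1) ∧ a = s * |a| := by
    rcases abs_cases a with ⟨h1, -⟩ | ⟨h1, -⟩
    · exact ⟨1, Or.inl rfl, by rw [h1]; push_cast; ring⟩
    · exact ⟨-1, Or.inr rfl, by rw [h1]; push_cast; ring⟩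
  have hθa : θ = 1 / |a| := by rw [ha]; field_simp
  have ha2 : 1 < |a| ^ 2 + |a| := by
    rw [hθa, one_div, inv_inv] at hcon
    have h1 : |a| * (|a|⁻¹ - |a|) < |a| * 1 := mul_lt_mul_of_pos_left hcon ha0
    rw [mul_sub, mul_inv_cancel₀ ha0.ne'] at h1
    nlinarith
  have hkey := key hLin hNr hrne hpar hs ha2 ha0 haa hb
  have h1 : θ - θ⁻¹ = 1 / |a| - |a| := by rw [hθa]; simp
  rw [h1] at hmain
  linarith

end Pool.Agent.B5.H12
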