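import Pool.Agent.Lib.MP_b5021c_nt.E2.H80.Trez
import Pool.Agent.Lib.MP_b5021c_nt.IfaceL1

/-!
# MP_b5021c_nt, all theta: the terminal case at one point `b`, `|b| < 1/θ` (helper12)
-/

namespace Pool.Agent.B5.H12

open scoped LaurentPolynomial
open Polynomial Pool.Agent.B5 Pool.Agent.B5.Nr
open Pool.Agent.B5.H09 (nf_unique phyp_of)

/-- A continuous function without zeros on the segment keeps its sign. -/
theorem sgn_seg {f : ℝ → ℝ} (hf : Continuous f) (h : ∀ t : ℝ, 0 ≤ t → t ≤ 1 → f t ≠ 0) :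
    0 < f 0 * f 1 := by
  by_contra hcon
  push Not at hcon
  have h1 : (0 : ℝ) ∈ Set.uIcc (f 0) (f 1) := by
    rw [Set.mem_uIcc]
    rcases lt_trichotomy (f 0) 0 with h2 | h2 | h2
    · left; refine ⟨h2.le, ?_⟩; nlinarith
    · exact absurd h2 (h 0 le_rfl zero_le_one)
    · right; refine ⟨?_, h2.le⟩; nlinarith
  obtain ⟨t, ht, ht0⟩ := intermediate_value_uIcc (hf.continuousOn) h1
  rw [Set.uIcc_of_le zero_le_one] at ht
  exact h t ht.1 ht.2 ht0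

/-- The value of an integral polynomial at a real point. -/
theorem eval_real (q : ℤ[X]) (x : ℝ) : (q.map (Coef.emb : ℤ →+* ℂ)).eval (x : ℂ) =
    (((q.map (Int.castRingHom ℝ)).eval x : ℝ) : ℂ) := by
  have h : (Coef.emb : ℤ →+* ℂ) = (Complex.ofRealHom : ℝ →+* ℂ).comp (Int.castRingHom ℝ) :=
    RingHom.ext_int _ _
  rw [h, ← Polynomial.map_map, eval_map]
  have h1 : (x : ℂ) = Complex.ofRealHom x := rfl
  rw [h1, eval₂_at_apply]
  rfl

/-- (PSB) the row PSZ at a real point nearer to zero than the zero of `Q`. -/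
def PsbS : Prop := ∀ (θ b₁ : ℝ) (Q V r : RO ℤ), ClassP θ Q → (∀ z : Circle, evR z Q ≠ 0) →
  TypA 1 Q V → (∀ z : Circle, ‖evR z (V - Q)‖ ≤ ‖evR z Q‖) → rsh r = r →
    (∀ z : Circle, evR z V ≠ 0 → (evR z r).re = 2 * (evR z Q / evR z V).re - 1) →
      0 < b₁ → b₁ < θ⁻¹ →
      ∃ (b : ℝ) (m : ℕ) (t : ℤ), |b| = b₁ ∧ r.coeff 0 + m = 2 * t - 1 ∧
        1 + pmn (b : ℂ) r + (1 - |b|) / (1 + |b|) * m < 2 * (1 / b₁ - b₁)

theorem psb (hPCZ : PCZS) (hPsc : PscS) (hPso : PsoS) (hPmf : PmfS) : PsbS := by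
  intro θ b₁ Q V r hP hQ hA hVQ hr hrV hb0 hbθ
  obtain ⟨n, q, e, hQn, hVn, hq0, he0, hez⟩ := hA
  obtain ⟨hθ, n', q', hQ', hq0', w, hw, hroots⟩ := hP
  have hθ0 : (0 : ℝ) < θ := by linarith
  have hne : ∀ x : ℤ, ‖(Coef.emb x : ℂ)‖ = 1 → x ≠ 0 := by
    intro x hx h
    rw [h, map_zero, norm_zero] at hx
    exact zero_ne_one hx
  obtain ⟨-, hqq⟩ := nf_unique n n' q q' (hne _ hq0) (hne _ hq0') (by rw [← hQn, hQ'])
  subst hqq
  obtain ⟨a, rfl⟩ : ∃ a : ℝ, (a : ℂ) = w := E2.real_root q w hroots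
  have hw0 : (a : ℂ) ≠ 0 := by
    intro h
    rw [h, norm_zero] at hw
    exact (inv_pos.mpr hθ0).ne hw
  have ha0 : a ≠ 0 := by exact_mod_cast hw0
  have hwa : |a| = θ⁻¹ := by rw [← hw, Complex.norm_real, Real.norm_eq_abs]
  have hθ1 : θ⁻¹ < 1 := inv_lt_one_of_one_lt₀ hθ
  have hw1 : ‖(a : ℂ)‖ < 1 := by rw [hw]; exact hθ1
  have hph := phyp_of Q V n q e hQn hVn hez a hw0 hw1 hroots hQ hVQ
  obtain ⟨qc, hqc⟩ : ∃ qc : ℂ[X], qc = q.map (Coef.emb : ℤ →+* ℂ) := ⟨_, rfl⟩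
  obtain ⟨ec, hec⟩ : ∃ ec : ℂ[X], ec = e.map (Coef.emb : ℤ →+* ℂ) := ⟨_, rfl⟩
  obtain ⟨qr, hqr⟩ : ∃ qr : ℝ[X], qr = q.map (Int.castRingHom ℝ) := ⟨_, rfl⟩
  obtain ⟨er, her⟩ : ∃ er : ℝ[X], er = e.map (Int.castRingHom ℝ) := ⟨_, rfl⟩
  have hqv : ∀ x : ℝ, qc.eval (x : ℂ) = ((qr.eval x : ℝ) : ℂ) := fun x => by
    rw [hqc, hqr, eval_real]
  have hev : ∀ x : ℝ, ec.eval (x : ℂ) = ((er.eval x : ℝ) : ℂ) := fun x => by
    rw [hec, her, eval_real]
  rw [← hqc, ← hec] at hph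
  rw [← hec] at hez
  rw [← hqc] at hroots
  have hqne : qc ≠ 0 := by
    intro h
    rw [h, roots_zero] at hroots
    simp at hroots
  -- zeros of `q` in the disc
  have hqz : ∀ z : ℂ, ‖z‖ < 1 → z ≠ a → qc.eval z ≠ 0 := by
    intro z hz hza h0
    have h1 : z ∈ qc.roots.filter (fun x => ‖x‖ < 1) := by
      rw [Multiset.mem_filter]
      exact ⟨(mem_roots hqne).mpr h0, hz⟩
    rw [hroots, Multiset.mem_singleton] at h1
    exact hza h1
  have hnq : ∀ z : ℂ, ‖z‖ = 1 → qc.eval z ≠ 0 := by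
    intro z hz h0
    have h1 := hph.nz z hz
    apply h1
    have h2 : (2 * qc - X * ec + C ((1 : ℝ) : ℂ) * X * ec : ℂ[X]) = C (2 : ℂ) * qc := by
      have h2 : (C (2 : ℂ) : ℂ[X]) = 2 := rfl
      rw [h2, Complex.ofReal_one, C_1]; ring
    rw [h2, eval_mul, h0, mul_zero]
  -- the point `b`
  obtain ⟨b, hb⟩ : ∃ b : ℝ, b = a * (b₁ / |a|) := ⟨_, rfl⟩
  have haa : 0 < |a| := abs_pos.mpr ha0
  have hba : |b| = b₁ := by
    rw [hb, abs_mul, abs_of_pos (div_pos hb0 haa)]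
    field_simp
  have hr1 : b₁ / |a| < 1 := by rw [div_lt_one haa, hwa]; exact hbθ
  have hb1 : |b| < 1 := by rw [hba]; linarith
  have hbne : b ≠ 0 := by
    intro h
    rw [h, abs_zero] at hba
    exact hb0.ne hba
  have hbc0 : (b : ℂ) ≠ 0 := by exact_mod_cast hbne
  have hbc1 : ‖(b : ℂ)‖ < 1 := by rw [Complex.norm_real, Real.norm_eq_abs]; exact hb1
  -- signs
  have hsq : 0 < qr.eval 0 * qr.eval b := by
    have h1 := sgn_seg (f := fun t => qr.eval (t * b)) (by fun_prop) (by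
      intro t ht0 ht1 h0
      have h2 : qc.eval ((t * b : ℝ) : ℂ) = 0 := by rw [hqv, h0]; simp
      have h3 : |t * b| < |a| := by
        rw [abs_mul, abs_of_nonneg ht0, hba]
        calc t * b₁ ≤ 1 * b₁ := mul_le_mul_of_nonneg_right ht1 hb0.le
          _ = b₁ := one_mul _
          _ < |a| := by rw [hwa]; exact hbθ
      refine hqz _ ?_ ?_ h2
      · rw [Complex.norm_real, Real.norm_eq_abs]
        rw [hwa] at h3
        linarith
      · intro h4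
        have h5 : t * b = a := by exact_mod_cast h4
        rw [h5] at h3
        exact lt_irrefl _ h3)
    simpa using h1
  have hse : 0 < er.eval 0 * er.eval b := by
    have h1 := sgn_seg (f := fun t => er.eval (t * b)) (by fun_prop) (by
      intro t ht0 ht1 h0
      have h2 : ec.eval ((t * b : ℝ) : ℂ) = 0 := by rw [hev, h0]; simp
      have h3 : |t * b| < 1 := by
        rw [abs_mul, abs_of_nonneg ht0]
        nlinarith [abs_nonneg b]
      refine hez _ ?_ h2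
      rw [Complex.norm_real, Real.norm_eq_abs]
      exact h3)
    simpa using h1
  -- the sign of `q(0)/(a e(0))` from the function `C`
  have hsa : qr.eval 0 / (er.eval 0 * a) < 0 := by
    obtain ⟨Cf, -, hCpos, hC0, -⟩ := hPsc _ _ _ hph
    have h1 := hCpos 0 (by simp)
    rw [hC0] at h1
    have e0 : (0 : ℂ) = ((0 : ℝ) : ℂ) := by simp
    have h2 : (2 * qc - X * ec : ℂ[X]).eval 0 = ((2 * qr.eval 0 : ℝ) : ℂ) := by
      rw [eval_sub, eval_mul, eval_mul, eval_X, zero_mul, sub_zero]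
      have : eval (0 : ℂ) (2 : ℂ[X]) = 2 := by simp
      rw [this]
      conv_lhs => rw [e0]
      rw [hqv]
      push_cast
      ring
    have h3 : ec.eval 0 = ((er.eval 0 : ℝ) : ℂ) := by
      conv_lhs => rw [e0]
      exact hev 0
    rw [h2, h3, Complex.conj_ofReal] at h1
    have h4 : (-1 - ((2 * qr.eval 0 : ℝ) : ℂ) / ((er.eval 0 : ℝ) : ℂ) * (1 / (a : ℂ) - (a : ℂ))) =
        ((-1 - 2 * qr.eval 0 / er.eval 0 * (1 / a - a) : ℝ) : ℂ) := by push_cast; ring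
    rw [h4, Complex.ofReal_re] at h1
    have he0' : er.eval 0 ≠ 0 := by
      intro h; rw [h, zero_mul] at hse; exact lt_irrefl _ hse
    have h5 : 2 * qr.eval 0 / er.eval 0 * (1 / a - a) =
        2 * (1 - |a| ^ 2) * (qr.eval 0 / (er.eval 0 * a)) := by
      rw [sq_abs]
      field_simp
    rw [h5] at h1
    have h6 : 0 < 2 * (1 - |a| ^ 2) := by
      have : |a| < 1 := by rw [hwa]; exact hθ1
      nlinarith
    by_contra h7
    push Not at h7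
    nlinarith [mul_nonneg h6.le h7]
  have hsb : qr.eval b / (er.eval b * b) < 0 := by
    have he0' : er.eval 0 ≠ 0 := by
      intro h; rw [h, zero_mul] at hse; exact lt_irrefl _ hse
    have heb' : er.eval b ≠ 0 := by
      intro h; rw [h, mul_zero] at hse; exact lt_irrefl _ hse
    have hq0' : qr.eval 0 ≠ 0 := by
      intro h; rw [h, zero_mul] at hsq; exact lt_irrefl _ hsq
    have h1 : qr.eval b / (er.eval b * b) = (qr.eval 0 / (er.eval 0 * a)) *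
        ((qr.eval 0 * qr.eval b) * (er.eval 0 * er.eval b) * (|a| / b₁) /
          ((qr.eval 0) ^ 2 * (er.eval b) ^ 2)) := by
      rw [hb]
      field_simp
    rw [h1]
    apply mul_neg_of_neg_of_pos hsa
    apply div_pos
    · exact mul_pos (mul_pos hsq hse) (div_pos haa hb0)
    · positivity
  -- the value `v`
  obtain ⟨t, ht⟩ : ∃ t : ℝ, t = -(qr.eval b / (er.eval b * b)) := ⟨_, rfl⟩
  have ht0 : 0 < t := by rw [ht]; linarith
  have heb' : er.eval b ≠ 0 := by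
    intro h; rw [h, mul_zero] at hse; exact lt_irrefl _ hse
  have htb : qr.eval b + t * b * er.eval b = 0 := by
    rw [ht]; field_simp; ring
  have hsum : (2 * qc - X * ec + C ((1 + 2 * t : ℝ) : ℂ) * X * ec : ℂ[X]) =
      C ((2 * (1 + t) : ℝ) : ℂ) * (qc + C ((t / (1 + t) : ℝ) : ℂ) * (X * ec - qc)) := by
    have h1 : ((1 + t : ℝ) : ℂ) ≠ 0 := by
      have : (1 + t) ≠ 0 := by linarith
      exact_mod_cast this
    have h2 : (C ((1 + 2 * t : ℝ) : ℂ) : ℂ[X]) = 1 + 2 * C ((t : ℝ) : ℂ) := by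
      have h3 : (2 : ℂ[X]) = C 2 := rfl
      have h4 : (1 : ℂ[X]) = C 1 := rfl
      rw [h3, h4, ← C_mul, ← C_add]
      push_cast
      rfl
    have h3 : (C ((2 * (1 + t) : ℝ) : ℂ) : ℂ[X]) * C ((t / (1 + t) : ℝ) : ℂ) = 2 * C ((t : ℝ) : ℂ) := by
      have h3 : (2 : ℂ[X]) = C 2 := rfl
      rw [h3, ← C_mul, ← C_mul]
      congr 1
      push_cast
      push_cast at h1
      field_simp
    have h4 : (C ((2 * (1 + t) : ℝ) : ℂ) : ℂ[X]) = 2 + 2 * C ((t : ℝ) : ℂ) := by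
      have h3 : (2 : ℂ[X]) = C 2 := rfl
      rw [h3, ← C_mul, ← C_add]
      push_cast
      ring_nf
    rw [mul_add, ← mul_assoc, h3, h2, h4]
    ring
  have hs0 : 0 < t / (1 + t) := div_pos ht0 (by linarith)
  have hs1 : t / (1 + t) < 1 := by rw [div_lt_one (by linarith)]; linarith
  have hc2 : ((2 * (1 + t) : ℝ) : ℂ) ≠ 0 := by
    have : (2 * (1 + t)) ≠ 0 := by linarith
    exact_mod_cast this
  have hcir : ∀ z : ℂ, ‖z‖ = 1 → ‖(X * ec - qc : ℂ[X]).eval z‖ ≤ ‖qc.eval z‖ := by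
    intro z hz
    obtain ⟨zc, rfl⟩ : ∃ zc : Circle, (zc : ℂ) = z := ⟨⟨z, mem_sphere_zero_iff_norm.mpr hz⟩, rfl⟩
    have h1 := hVQ zc
    have hz0 : (zc : ℂ) ≠ 0 := Circle.coe_ne_zero zc
    rw [map_sub, hVn, hQn, H70.evR_T_mul, H70.evR_T_mul] at h1
    rw [zpow_add₀ hz0, zpow_one, mul_assoc, ← mul_sub, norm_mul, norm_mul, norm_zpow, hz,
      one_zpow, one_mul, one_mul] at h1
    rw [eval_sub, eval_mul, eval_X, hec, hqc]
    exact h1
  have hlt : ∀ z : ℂ, ‖z‖ = 1 →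
      ‖(C ((t / (1 + t) : ℝ) : ℂ) * (X * ec - qc) : ℂ[X]).eval z‖ < ‖qc.eval z‖ := by
    intro z hz
    rw [eval_mul, eval_C, norm_mul, Complex.norm_real, Real.norm_eq_abs, abs_of_pos hs0]
    have h1 := hcir z hz
    have h2 : 0 < ‖qc.eval z‖ := norm_pos_iff.mpr (hnq z hz)
    calc t / (1 + t) * ‖(X * ec - qc : ℂ[X]).eval z‖ ≤ t / (1 + t) * ‖qc.eval z‖ :=
          mul_le_mul_of_nonneg_left h1 hs0.le
      _ < 1 * ‖qc.eval z‖ := mul_lt_mul_of_pos_right hs1 h2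
      _ = ‖qc.eval z‖ := one_mul _
  have hnz2 : ∀ z : ℂ, ‖z‖ = 1 →
      (qc + C ((t / (1 + t) : ℝ) : ℂ) * (X * ec - qc) : ℂ[X]).eval z ≠ 0 := by
    intro z hz h0
    have h1 := hlt z hz
    rw [eval_add] at h0
    rw [eq_neg_of_add_eq_zero_left h0, norm_neg] at h1
    exact lt_irrefl _ h1
  have hne2 : (qc + C ((t / (1 + t) : ℝ) : ℂ) * (X * ec - qc) : ℂ[X]) ≠ 0 := by
    intro h0
    exact hnz2 1 (by simp) (by rw [h0, eval_zero])
  have hcard := hPCZ (a : ℂ) qc (C ((t / (1 + t) : ℝ) : ℂ) * (X * ec - qc)) hroots hnq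
    (fun z hz => (hlt z hz).le) hne2
  have hbroot : (qc + C ((t / (1 + t) : ℝ) : ℂ) * (X * ec - qc) : ℂ[X]).eval (b : ℂ) = 0 := by
    rw [eval_add, eval_mul, eval_C, eval_sub, eval_mul, eval_X, hqv, hev]
    have h1 : (1 + t) ≠ 0 := by linarith
    have h2 : qr.eval b + t / (1 + t) * (b * er.eval b - qr.eval b) = 0 := by
      have h3 : qr.eval b + t / (1 + t) * (b * er.eval b - qr.eval b) =
          (qr.eval b + t * b * er.eval b) / (1 + t) := by field_simp; ring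
      rw [h3, htb, zero_div]
    exact_mod_cast h2
  have hone : (qc + C ((t / (1 + t) : ℝ) : ℂ) * (X * ec - qc) : ℂ[X]).roots.filter
      (fun z => ‖z‖ < 1) = {(b : ℂ)} := by
    have h1 : (b : ℂ) ∈ (qc + C ((t / (1 + t) : ℝ) : ℂ) * (X * ec - qc) : ℂ[X]).roots.filter
        (fun z => ‖z‖ < 1) := by
      rw [Multiset.mem_filter]
      exact ⟨(mem_roots hne2).mpr hbroot, hbc1⟩
    have h2 : ((qc + C ((t / (1 + t) : ℝ) : ℂ) * (X * ec - qc) : ℂ[X]).roots.filter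
        (fun z => ‖z‖ < 1)).card = 1 := by
      have h3 : 0 < ((qc + C ((t / (1 + t) : ℝ) : ℂ) * (X * ec - qc) : ℂ[X]).roots.filter
        (fun z => ‖z‖ < 1)).card := Multiset.card_pos_iff_exists_mem.mpr ⟨_, h1⟩
      omega
    obtain ⟨y, hy⟩ := Multiset.card_eq_one.mp h2
    rw [hy, Multiset.mem_singleton] at h1
    rw [hy, h1]
  have hphb : PHyp (2 * qc - X * ec) ec (b : ℂ) (1 + 2 * t) := by
    refine ⟨by linarith, hbc0, hbc1, hez, hph.re, ?_, ?_⟩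
    · intro z hz
      rw [hsum, eval_mul, eval_C]
      exact mul_ne_zero hc2 (hnz2 z hz)
    · rw [hsum, roots_C_mul _ hc2, hone]
  obtain ⟨r', hr0, hre, hpmn, -⟩ := hPmf ℤ r b hbc1 hr
  have hcond : ∀ z : ℂ, ‖z‖ = 1 → ec.eval z ≠ 0 →
      ((2 * qc - X * ec).eval z / (z * ec.eval z)).re = (r'.eval z).re := by
    intro z hz hez'
    obtain ⟨zc, rfl⟩ : ∃ zc : Circle, (zc : ℂ) = z := ⟨⟨z, mem_sphere_zero_iff_norm.mpr hz⟩, rfl⟩
    obtain ⟨z, hzz⟩ : ∃ z : ℂ, z = (zc : ℂ) := ⟨_, rfl⟩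
    have hz0 : z ≠ 0 := by rw [hzz]; exact Circle.coe_ne_zero zc
    rw [← hzz] at hez' ⊢
    have hV : evR zc V = z ^ n * (z * ec.eval z) := by
      rw [hVn, H70.evR_T_mul, ← hzz, zpow_add₀ hz0, zpow_one, mul_assoc, hec]
    have hQz : evR zc Q = z ^ n * qc.eval z := by
      rw [hQn, H70.evR_T_mul, ← hzz, hqc]
    have hzn : z ^ n ≠ 0 := zpow_ne_zero n hz0
    have hze : z * ec.eval z ≠ 0 := mul_ne_zero hz0 hez'
    have h3 := hrV zc (by rw [hV]; exact mul_ne_zero hzn hze)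
    rw [hre, ← hzz, hV, hQz, mul_div_mul_left _ _ hzn] at h3
    rw [h3, eval_sub, eval_mul, eval_mul, eval_X]
    have h4 : (eval z (2 : ℂ[X]) * qc.eval z - z * ec.eval z) / (z * ec.eval z) =
        2 * (qc.eval z / (z * ec.eval z)) - 1 := by
      have : eval z (2 : ℂ[X]) = 2 := by simp
      rw [this, sub_div, div_self hze]; ring
    rw [h4]
    simp [Complex.sub_re, Complex.mul_re]
  obtain ⟨hA1, hA2⟩ := hPso _ _ r' b (1 + 2 * t) hphb hcond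
  -- coefficients
  have he2 : e.coeff 0 * e.coeff 0 = 1 := by
    have h1 : ‖((e.coeff 0 : ℤ) : ℂ)‖ = 1 := he0
    rw [Complex.norm_intCast] at h1
    have h2 : |e.coeff 0| = 1 := by exact_mod_cast h1
    rcases abs_eq (zero_le_one) |>.mp h2 with h | h <;> rw [h] <;> norm_num
  have hc0 : (2 * qc - X * ec).coeff 0 = 2 * ((q.coeff 0 : ℤ) : ℂ) := by
    rw [coeff_sub, mul_coeff_zero, mul_coeff_zero, hqc, coeff_map, coeff_X_zero, zero_mul, sub_zero]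
    have : (2 : ℂ[X]).coeff 0 = 2 := by simp
    rw [this]; rfl
  have hc1 : (2 * qc - X * ec).coeff 1 = 2 * ((q.coeff 1 : ℤ) : ℂ) - ((e.coeff 0 : ℤ) : ℂ) := by
    have h2 : (2 : ℂ[X]) = C 2 := rfl
    have h3 : (X * ec).coeff 1 = ec.coeff 0 := coeff_X_mul _ 0
    rw [coeff_sub, h2, coeff_C_mul, h3, hqc, hec, coeff_map, coeff_map]
    rfl
  have hd0 : ec.coeff 0 = ((e.coeff 0 : ℤ) : ℂ) := by
    rw [hec, coeff_map]; rfl
  have hd1 : ec.coeff 1 = ((e.coeff 1 : ℤ) : ℂ) := by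
    rw [hec, coeff_map]; rfl
  have he2c : ((e.coeff 0 : ℤ) : ℂ) ^ 2 = 1 := by
    rw [sq]; exact_mod_cast he2
  have ht0' : (((2 * qc - X * ec).coeff 1 * ec.coeff 0 -
      (2 * qc - X * ec).coeff 0 * ec.coeff 1) / ec.coeff 0 ^ 2).re =
      ((2 * (q.coeff 1 * e.coeff 0 - q.coeff 0 * e.coeff 1) - 1 : ℤ) : ℝ) := by
    rw [hc0, hc1, hd0, hd1, he2c, div_one]
    have : (2 * ((q.coeff 1 : ℤ) : ℂ) - ((e.coeff 0 : ℤ) : ℂ)) * ((e.coeff 0 : ℤ) : ℂ) -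
        2 * ((q.coeff 0 : ℤ) : ℂ) * ((e.coeff 1 : ℤ) : ℂ) =
        (((2 * (q.coeff 1 * e.coeff 0 - q.coeff 0 * e.coeff 1) - 1 : ℤ) : ℝ) : ℂ) := by
      have h1 : (2 * ((q.coeff 1 : ℤ) : ℂ) - ((e.coeff 0 : ℤ) : ℂ)) * ((e.coeff 0 : ℤ) : ℂ) -
        2 * ((q.coeff 0 : ℤ) : ℂ) * ((e.coeff 1 : ℤ) : ℂ) =
        2 * (((q.coeff 1 : ℤ) : ℂ) * ((e.coeff 0 : ℤ) : ℂ) -
          ((q.coeff 0 : ℤ) : ℂ) * ((e.coeff 1 : ℤ) : ℂ)) - ((e.coeff 0 : ℤ) : ℂ) ^ 2 := by ring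
      rw [h1, he2c]
      push_cast
      ring
    rw [this, Complex.ofReal_re]
  rw [ht0'] at hA1 hA2
  have hr0' : (r'.eval 0).re = ((r.coeff 0 : ℤ) : ℝ) := by
    rw [← coeff_zero_eq_eval_zero, hr0]
    change (((r.coeff 0 : ℤ) : ℂ)).re = _
    simp
  rw [hr0'] at hA1 hA2
  have hle : r.coeff 0 ≤ 2 * (q.coeff 1 * e.coeff 0 - q.coeff 0 * e.coeff 1) - 1 := by
    exact_mod_cast hA1
  obtain ⟨m, hm⟩ := Int.le.dest hle
  refine ⟨b, m, q.coeff 1 * e.coeff 0 - q.coeff 0 * e.coeff 1, hba, hm, ?_⟩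
  have hm2 : ((2 * (q.coeff 1 * e.coeff 0 - q.coeff 0 * e.coeff 1) - 1 : ℤ) : ℝ) -
      ((r.coeff 0 : ℤ) : ℝ) = (m : ℝ) := by
    rw [← hm]; push_cast; ring
  rw [hm2, Complex.norm_real, Real.norm_eq_abs] at hA2
  rw [hpmn]
  have hval : ‖(2 * qc - X * ec).eval 0 / ec.eval 0 *
      (1 / (b : ℂ) - (starRingEnd ℂ) (b : ℂ))‖ = 2 * (1 / b₁ - b₁) := by
    rw [norm_mul, norm_div, ← coeff_zero_eq_eval_zero, ← coeff_zero_eq_eval_zero, hc0, hd0,
      norm_mul]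
    have h1 : ‖((q.coeff 0 : ℤ) : ℂ)‖ = 1 := hq0
    have h2 : ‖((e.coeff 0 : ℤ) : ℂ)‖ = 1 := he0
    rw [h1, h2, Complex.norm_ofNat, mul_one, div_one]
    have h3 : 1 / (b : ℂ) - (starRingEnd ℂ) (b : ℂ) = (1 / (b : ℂ)) * ((1 - |b| ^ 2 : ℝ) : ℂ) := by
      rw [Complex.conj_ofReal, sq_abs]
      push_cast
      field_simp
    rw [h3, norm_mul, norm_div, norm_one, Complex.norm_real, Complex.norm_real, Real.norm_eq_abs,
      Real.norm_eq_abs, hba]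
    have h4 : (0 : ℝ) ≤ 1 - b₁ ^ 2 := by
      rw [← hba]
      nlinarith [abs_nonneg b]
    rw [abs_of_nonneg h4]
    field_simp
  have h5 := Complex.abs_re_le_norm ((2 * qc - X * ec).eval 0 / ec.eval 0 *
      (1 / (b : ℂ) - (starRingEnd ℂ) (b : ℂ)))
  rw [hval] at h5
  have := neg_abs_le (((2 * qc - X * ec).eval 0 / ec.eval 0 *
      (1 / (b : ℂ) - (starRingEnd ℂ) (b : ℂ))).re)
  linarith

/-- (TRH) terminal case: the bound of TRE for `θ < 2` at the point `1/t`, `t ≥ 2`. -/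
def TrhS : Prop := ∀ (P L : Type) [Fintype P] [DecidableEq P] [AddCommGroup L] [Module.Free ℤ L]
  [Module.Finite ℤ L] (phi : L →+ (P → ℤ)) (D : AO ℤ L) (S : L) (eta : (RO ℤ)ˣ) (θ t : ℝ),
    DD phi D → 2 ≤ Module.finrank ℤ L → Ray D S → ClassP θ (D.coeff 0) →
    TypA 1 (D.coeff 0) (D.coeff 0 + (eta : RO ℤ) * D.coeff S) → 2 ≤ t → θ < t →
      (Module.finrank ℤ L : ℝ) < 2 * (t - t⁻¹)

theorem trh (hPsb : PsbS) (hTrm : TrmS) (hSnr : SnrS) (hE2 : E2S)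
    (hEv : EvRS) : TrhS := by
  intro P L _ _ _ _ _ phi D S eta θ t hDD hrk hS hP hA ht2 htθ
  obtain ⟨hEv1, hEv2, hEv3, hEv4⟩ := hEv ℤ
  obtain ⟨hQ0, -, -, -, -, hray⟩ := hE2 ℤ P L phi D hDD hrk
  obtain ⟨hle, -⟩ := hray S hS
  obtain ⟨i0, n, f, T, hT0, hTn, hrank, hsum⟩ := hTrm ℤ P L phi D S eta θ hDD hrk hS hP hA
  have hθ1 : 1 < θ := hP.1
  have hVQ : ∀ z : Circle, ‖evR z (D.coeff 0 + (eta : RO ℤ) * D.coeff S - D.coeff 0)‖ ≤
      ‖evR z (D.coeff 0)‖ := by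
    intro z
    have h1 : D.coeff 0 + (eta : RO ℤ) * D.coeff S - D.coeff 0 = (eta : RO ℤ) * D.coeff S := by ring
    rw [h1, map_mul, norm_mul, hEv2 z _ eta.isUnit, one_mul]
    exact hle z
  have hrs : rsh (∑ i, (T i).coeff 0) = ∑ i, (T i).coeff 0 := by
    rw [map_sum]
    exact Finset.sum_congr rfl fun i _ => H65.rsh_coeff0 (T i) (hTn i).1
  have ht0 : 0 < t := by linarith
  have htinv : t⁻¹ < θ⁻¹ := by
    rw [inv_lt_inv₀ ht0 (by linarith)]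
    exact htθ
  obtain ⟨b, m, k, hb, -, hmain⟩ := hPsb θ t⁻¹ _ _ (∑ i, (T i).coeff 0) hP hQ0 hA hVQ hrs hsum
    (inv_pos.mpr ht0) htinv
  have hb2 : |b| ≤ 1 / 2 := by
    rw [hb, inv_eq_one_div]
    exact one_div_le_one_div_of_le (by norm_num) ht2
  have hnb : ‖(b : ℂ)‖ = |b| := by rw [Complex.norm_real, Real.norm_eq_abs]
  have hb1 : ‖(b : ℂ)‖ < 1 := by rw [hnb]; linarith
  rw [H65.pmn_sum hEv1 (b : ℂ) hb1] at hmain
  have h6 : ∑ i, (1 + (rk (supp (T i)) : ℝ)) ≤ ∑ i, pmn (b : ℂ) ((T i).coeff 0) :=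
    Finset.sum_le_sum fun i _ => (hSnr (Ker (f i)) (T i) b hb2 (hT0 i) (hTn i)).1
  have h5 : (Module.finrank ℤ L : ℝ) ≤ 1 + ∑ i, (1 + (rk (supp (T i)) : ℝ)) := by
    exact_mod_cast hrank
  have hm0 : (0 : ℝ) ≤ (m : ℝ) := Nat.cast_nonneg m
  have hab : 0 ≤ |b| := abs_nonneg b
  have h7 : 0 ≤ (1 - |b|) / (1 + |b|) * (m : ℝ) :=
    mul_nonneg (div_nonneg (by linarith) (by linarith)) hm0
  have h8 : 2 * (1 / t⁻¹ - t⁻¹) = 2 * (t - t⁻¹) := by rw [one_div, inv_inv]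
  rw [h8] at hmain
  linarith

/-- For `θ < 2` a load of type A into class `V(1)` forces rank at most two. -/
theorem trh2 (h : TrhS) : ∀ (P L : Type) [Fintype P] [DecidableEq P] [AddCommGroup L]
    [Module.Free ℤ L] [Module.Finite ℤ L] (phi : L →+ (P → ℤ)) (D : AO ℤ L) (S : L)
    (eta : (RO ℤ)ˣ) (θ : ℝ), DD phi D → 2 ≤ Module.finrank ℤ L → Ray D S →
    ClassP θ (D.coeff 0) → TypA 1 (D.coeff 0) (D.coeff 0 + (eta : RO ℤ) * D.coeff S) → θ < 2 →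
      Module.finrank ℤ L ≤ 2 := by
  intro P L _ _ _ _ _ phi D S eta θ hDD hrk hS hP hA hθ
  have h1 := h P L phi D S eta θ 2 hDD hrk hS hP hA le_rfl hθ
  have h2 : (Module.finrank ℤ L : ℝ) < 3 := by
    have : (2 : ℝ) * (2 - 2⁻¹) = 3 := by norm_num
    rwa [this] at h1
  have h3 : Module.finrank ℤ L < 3 := by exact_mod_cast h2
  omega

end Pool.Agent.B5.H12
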